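import Mathlib
import Pool.Agent.Helper18.PB.Defs

/-!
# Packet F1: a null cone meets the unit sphere in a null set
-/

set_option autoImplicit false

open MeasureTheory Measure Set
open scoped NNReal ENNReal

namespace Pool.Agent.Helper19.PB

universe v

open Pool.Agent.Helper18.PB

theorem norm_normalize_sub_le {Y : Type v} [NormedAddCommGroup Y] [NormedSpace ℝ Y] (a b : Y)
    (ha : 1 ≤ ‖a‖) (hb : 1 ≤ ‖b‖) : ‖‖a‖⁻¹ • a - ‖b‖⁻¹ • b‖ ≤ 2 * ‖a - b‖ := by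
  have ha0 : (0 : ℝ) < ‖a‖ := by linarith
  have hb0 : (0 : ℝ) < ‖b‖ := by linarith
  have e : ‖a‖⁻¹ • a - ‖b‖⁻¹ • b = ‖a‖⁻¹ • (a - b) + (‖a‖⁻¹ * (‖b‖ - ‖a‖)) • (‖b‖⁻¹ • b) := by
    rw [smul_sub, smul_smul]
    have : ‖a‖⁻¹ * (‖b‖ - ‖a‖) * ‖b‖⁻¹ = ‖a‖⁻¹ - ‖b‖⁻¹ := by
      field_simp
    rw [this, sub_smul]
    abel
  have hai : ‖a‖⁻¹ ≤ 1 := inv_le_one_of_one_le₀ ha
  have hai0 : 0 ≤ ‖a‖⁻¹ := by positivity
  have hn : ‖‖b‖⁻¹ • b‖ = 1 := by
    rw [norm_smul, norm_inv, norm_norm]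
    field_simp
  have h1 : ‖‖a‖⁻¹ • (a - b)‖ ≤ ‖a - b‖ := by
    rw [norm_smul, norm_inv, norm_norm]
    calc ‖a‖⁻¹ * ‖a - b‖ ≤ 1 * ‖a - b‖ := by gcongr
      _ = _ := one_mul _
  have h2 : ‖(‖a‖⁻¹ * (‖b‖ - ‖a‖)) • (‖b‖⁻¹ • b)‖ ≤ ‖a - b‖ := by
    rw [norm_smul, hn, mul_one, norm_mul, norm_inv, norm_norm, Real.norm_eq_abs]
    have : |‖b‖ - ‖a‖| ≤ ‖a - b‖ := by
      rw [norm_sub_rev]; exact abs_norm_sub_norm_le b a
    calc ‖a‖⁻¹ * |‖b‖ - ‖a‖| ≤ 1 * ‖a - b‖ := by gcongr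
      _ = _ := one_mul _
  rw [e]
  calc _ ≤ _ := norm_add_le _ _
    _ ≤ ‖a - b‖ + ‖a - b‖ := add_le_add h1 h2
    _ = _ := by ring

theorem f1 : GCone.{v} := by
  intro Y _ _ _ _ _ μ _ Z hn hZ hμ
  apply measure_null_of_locally_null
  rintro y0 ⟨hy0Z, hy0⟩
  have hy0n : ‖y0‖ = 1 := by simpa using hy0
  have hy0ne : y0 ≠ 0 := by
    intro h; rw [h, norm_zero] at hy0n; exact zero_ne_one hy0n
  obtain ⟨w, hw1, hwy⟩ := exists_dual_vector ℝ y0 (norm_ne_zero_iff.2 hy0ne)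
  have hwy1 : w y0 = 1 := by rw [hwy, hy0n]; simp
  set W : Submodule ℝ Y := LinearMap.ker (w : Y →ₗ[ℝ] ℝ) with hW
  obtain ⟨m, hm⟩ : ∃ m, Module.finrank ℝ Y = m + 1 := ⟨_, (Nat.sub_add_cancel hn).symm⟩
  have hWfin : Module.finrank ℝ W = m := by
    have h1 := LinearMap.finrank_range_add_finrank_ker (w : Y →ₗ[ℝ] ℝ)
    have h2 : LinearMap.range (w : Y →ₗ[ℝ] ℝ) = ⊤ := by
      apply LinearMap.range_eq_top.2
      intro r
      refine ⟨r • y0, ?_⟩
      simp [hwy1]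
    rw [h2, finrank_top, hm] at h1
    simp only [Module.finrank_self] at h1
    have : Module.finrank ℝ W = Module.finrank ℝ (LinearMap.ker (w : Y →ₗ[ℝ] ℝ)) := rfl
    omega
  have hfr : Module.finrank ℝ (Fin m → ℝ) = Module.finrank ℝ W := by
    rw [hWfin]; simp
  let ι : (Fin m → ℝ) ≃L[ℝ] W := ContinuousLinearEquiv.ofFinrankEq hfr
  have hwι : ∀ x, w (ι x : Y) = 0 := fun x => (ι x).2
  let Φl : (ℝ × (Fin m → ℝ)) →ₗ[ℝ] Y :=
    { toFun := fun p => p.1 • y0 + (ι p.2 : Y)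
      map_add' := by
        intro p q
        simp only [Prod.fst_add, Prod.snd_add, map_add, add_smul, Submodule.coe_add]
        abel
      map_smul' := by
        intro c p
        simp only [Prod.smul_fst, Prod.smul_snd, map_smul, smul_add, smul_smul,
          Submodule.coe_smul, smul_eq_mul, RingHom.id_apply] }
  have hΦapp : ∀ p, Φl p = p.1 • y0 + (ι p.2 : Y) := fun p => rfl
  have hΦinj : Function.Injective Φl := by
    rw [← LinearMap.ker_eq_bot, LinearMap.ker_eq_bot']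
    intro p hp
    rw [hΦapp] at hp
    have h1 : w (p.1 • y0 + (ι p.2 : Y)) = p.1 := by
      rw [map_add, map_smul, hwy1, hwι]; simp
    have hp1 : p.1 = 0 := by rw [← h1, hp, map_zero]
    rw [hp1, zero_smul, zero_add] at hp
    have : ι p.2 = 0 := by exact_mod_cast hp
    have hp2 : p.2 = 0 := by simpa using this
    exact Prod.ext hp1 hp2
  have hΦsurj : Function.Surjective Φl := by
    intro y
    have hy : y - w y • y0 ∈ W := by
      change w (y - w y • y0) = 0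
      rw [map_sub, map_smul, hwy1]; simp
    refine ⟨(w y, ι.symm ⟨_, hy⟩), ?_⟩
    rw [hΦapp]
    simp
  let Φ : (ℝ × (Fin m → ℝ)) ≃L[ℝ] Y :=
    (LinearEquiv.ofBijective Φl ⟨hΦinj, hΦsurj⟩).toContinuousLinearEquiv
  have hΦ : ∀ p, Φ p = p.1 • y0 + (ι p.2 : Y) := fun p => rfl
  -- the pullback of `Z` is null
  have hmeas : Measurable (Φ : (ℝ × (Fin m → ℝ)) → Y) := Φ.continuous.measurable
  have hpr : IsAddHaarMeasure ((volume : Measure ℝ).prod (volume : Measure (Fin m → ℝ))) :=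
    inferInstance
  have hmp : IsAddHaarMeasure
      (((volume : Measure ℝ).prod (volume : Measure (Fin m → ℝ))).map Φ) :=
    ContinuousLinearEquiv.isAddHaarMeasure_map Φ _
  have hac : (((volume : Measure ℝ).prod (volume : Measure (Fin m → ℝ))).map Φ) ≪ μ :=
    absolutelyContinuous_isAddHaarMeasure _ _
  have h2 : ((volume : Measure ℝ).prod (volume : Measure (Fin m → ℝ))) (Φ ⁻¹' Z) = 0 := by
    have h1 := hac hμ
    have he : MeasurableEmbedding (Φ : (ℝ × (Fin m → ℝ)) → Y) :=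
      Φ.toHomeomorph.measurableEmbedding
    rwa [he.map_apply] at h1
  have h3 := measure_ae_null_of_prod_null h2
  -- a good height
  obtain ⟨t, ht, htZ⟩ : ∃ t : ℝ, 0 < t ∧
      (volume : Measure (Fin m → ℝ)) (Prod.mk t ⁻¹' (Φ ⁻¹' Z)) = 0 := by
    by_contra hcon
    push Not at hcon
    have : (volume : Measure ℝ) (Ioi 0) ≤ (volume : Measure ℝ)
        {t | ¬ (fun x => (volume : Measure (Fin m → ℝ)) (Prod.mk x ⁻¹' (Φ ⁻¹' Z))) t
          = (0 : ℝ → ℝ≥0∞) t} := by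
      apply measure_mono
      intro t ht
      exact hcon t ht
    rw [show (volume : Measure ℝ) {t | ¬ (fun x => (volume : Measure (Fin m → ℝ))
        (Prod.mk x ⁻¹' (Φ ⁻¹' Z))) t = (0 : ℝ → ℝ≥0∞) t} = 0 from h3] at this
    simp at this
  set Q : Set (Fin m → ℝ) := {x | Φ (1, x) ∈ Z} with hQ
  have hQ0 : (volume : Measure (Fin m → ℝ)) Q = 0 := by
    have hsub : Q ⊆ (fun x => t • x) ⁻¹' (Prod.mk t ⁻¹' (Φ ⁻¹' Z)) := by
      intro x hx
      change Φ (t, t • x) ∈ Z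
      have h4 := hZ _ hx t ht
      have h5 : t • Φ (1, x) = Φ (t, t • x) := by
        rw [← map_smul]; congr 1; ext <;> simp
      rwa [h5] at h4
    refine measure_mono_null hsub ?_
    rw [addHaar_preimage_smul _ ht.ne', htZ, mul_zero]
  have hQH : (μH[(m : ℝ)] : Measure (Fin m → ℝ)) Q = 0 := by
    have h6 := hausdorffMeasure_pi_real (ι := Fin m)
    rw [Fintype.card_fin] at h6
    rw [h6]; exact hQ0
  -- the radial projection
  let ψ : (Fin m → ℝ) → Y := fun x => ‖Φ (1, x)‖⁻¹ • Φ (1, x)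
  have hΦ1 : ∀ x, 1 ≤ ‖Φ (1, x)‖ := by
    intro x
    have h7 : w (Φ (1, x)) = 1 := by
      rw [hΦ, map_add, map_smul, hwy1, hwι]; simp
    have h8 := w.le_opNorm (Φ (1, x))
    rw [h7, hw1, one_mul] at h8
    simpa using h8
  let j : (Fin m → ℝ) →L[ℝ] Y := W.subtypeL.comp (ι : (Fin m → ℝ) →L[ℝ] W)
  have hψ : LipschitzWith (2 * ‖j‖₊) ψ := by
    apply LipschitzWith.of_dist_le_mul
    intro x x'
    rw [dist_eq_norm, dist_eq_norm]
    have h9 := norm_normalize_sub_le _ _ (hΦ1 x) (hΦ1 x')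
    have h10 : Φ (1, x) - Φ (1, x') = j (x - x') := by
      rw [hΦ, hΦ]
      simp only [map_sub]
      change ((1 : ℝ) • y0 + (ι x : Y)) - ((1 : ℝ) • y0 + (ι x' : Y)) = (ι x : Y) - (ι x' : Y)
      abel
    rw [h10] at h9
    have h11 := j.le_opNorm (x - x')
    push_cast
    calc ‖ψ x - ψ x'‖ ≤ 2 * ‖j (x - x')‖ := h9
      _ ≤ 2 * (‖j‖ * ‖x - x'‖) := by gcongr
      _ = _ := by ring
  refine ⟨(Z ∩ Metric.sphere (0 : Y) 1) ∩ {y | 0 < w y}, ?_, ?_⟩
  · rw [nhdsWithin]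
    refine Filter.inter_mem (Filter.mem_inf_of_right (Filter.mem_principal_self _))
      (Filter.mem_inf_of_left ?_)
    apply (isOpen_lt continuous_const w.continuous).mem_nhds
    change 0 < w y0
    rw [hwy1]; norm_num
  · have hdim : (Module.finrank ℝ Y : ℝ) - 1 = (m : ℝ) := by rw [hm]; push_cast; ring
    rw [hdim]
    have hsub : (Z ∩ Metric.sphere (0 : Y) 1) ∩ {y | 0 < w y} ⊆ ψ '' Q := by
      rintro y ⟨⟨hyZ, hy1⟩, hwy0⟩
      have hy1' : ‖y‖ = 1 := by simpa using hy1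
      have hwpos : 0 < w y := hwy0
      obtain ⟨p, hp⟩ := Φ.surjective ((w y)⁻¹ • y)
      have hp1 : p.1 = 1 := by
        have h12 : w (Φ p) = p.1 := by
          rw [hΦ, map_add, map_smul, hwy1, hwι]; simp
        rw [← h12, hp, map_smul, smul_eq_mul, inv_mul_cancel₀ hwpos.ne']
      have hp' : Φ (1, p.2) = (w y)⁻¹ • y := by rw [← hp, ← hp1]
      refine ⟨p.2, ?_, ?_⟩
      · change Φ (1, p.2) ∈ Z
        rw [hp']
        exact hZ y hyZ _ (inv_pos.2 hwpos)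
      · change ‖Φ (1, p.2)‖⁻¹ • Φ (1, p.2) = y
        rw [hp', norm_smul, hy1', norm_inv, Real.norm_of_nonneg hwpos.le, mul_one, inv_inv,
          smul_smul, mul_inv_cancel₀ hwpos.ne', one_smul]
    refine measure_mono_null hsub ?_
    refine le_antisymm ?_ zero_le
    refine (hψ.hausdorffMeasure_image_le (Nat.cast_nonneg m) Q).trans ?_
    rw [hQH, mul_zero]

end Pool.Agent.Helper19.PB
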