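import Pool.Agent.Helper76.PB.GoalsF
import Pool.Agent.Helper53.REC.HKUM
import Pool.Agent.Helper28.REC.HRAM
import Pool.Agent.Helper19.REC.HH90
import Pool.Agent.Helper9.REC.KLOC
import Pool.Agent.Helper16.REC.KBAS

/-!
# Project B: packet X_CNT (existence theorem by counting)
-/

set_option autoImplicit false

namespace Pool.Agent.Helper19.PB

open NumberField Module IsDedekindDomain
open Pool.Agent.Helper51.RP Pool.Agent.Helper42.PP
open Pool.Agent.Helper51.REC (Kum)
open Pool.Agent.Helper76.PB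
open Pool.Agent.Helper42.RD (val_eq_one_of_sub val_mul_sub locPow_mul_pth locPow_inv ordv_mul
  ordv_pow ordv_eq_zero_iff exists_theta)

section linear

variable {p : ℕ} [Fact p.Prime] {G ι : Type} [CommGroup G] [Fintype ι]

/-- The homomorphisms which vanish on the kernel of `L` and on the subgroup `U`, and their number. -/
theorem dual_count (L : G → ι → ZMod p) (hL : ∀ x y, L (x * y) = L x + L y) (U : Subgroup G)
    (X : Finset G) (hXU : ∀ x ∈ X, x ∈ U) (hX : Set.InjOn L X) :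
    ∃ A : Finset (G → ZMod p),
      (∀ g : G → ZMod p, (∀ x y, g (x * y) = g x + g y) → (∀ x, L x = 0 → g x = 0) →
        (∀ x ∈ U, g x = 0) → g ∈ A) ∧ A.card * X.card ≤ p ^ Fintype.card ι := by
  classical
  have hL1 : L 1 = 0 := by
    have h := hL 1 1
    rw [mul_one] at h
    simpa using h
  have hLi : ∀ x, L x⁻¹ = - L x := by
    intro x
    have h := hL x x⁻¹
    rw [mul_inv_cancel, hL1] at h
    exact (neg_eq_of_add_eq_zero_right h.symm).symm
  let mk : Subgroup G → AddSubgroup (ι → ZMod p) := fun H =>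
    { carrier := L '' H
      add_mem' := by
        rintro _ _ ⟨x, hx, rfl⟩ ⟨y, hy, rfl⟩
        exact ⟨x * y, H.mul_mem hx hy, hL x y⟩
      zero_mem' := ⟨1, H.one_mem, hL1⟩
      neg_mem' := by
        rintro _ ⟨x, hx, rfl⟩
        exact ⟨x⁻¹, H.inv_mem hx, hLi x⟩ }
  let RU : Submodule (ZMod p) (ι → ZMod p) := AddSubgroup.toZModSubmodule p (mk U)
  let R : Submodule (ZMod p) (ι → ZMod p) := AddSubgroup.toZModSubmodule p (mk ⊤)
  have hmemR : ∀ x, L x ∈ R := fun x => ⟨x, trivial, rfl⟩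
  have hmemU : ∀ x ∈ U, L x ∈ RU := fun x hx => ⟨x, hx, rfl⟩
  have hfinD : Finite (Module.Dual (ZMod p) (ι → ZMod p)) := Module.finite_of_finite (ZMod p)
  let _ : Fintype RU.dualAnnihilator := Fintype.ofFinite _
  let _ : Fintype RU := Fintype.ofFinite _
  refine ⟨Finset.univ.image fun φ : RU.dualAnnihilator => fun x =>
    (φ : Module.Dual (ZMod p) (ι → ZMod p)) (L x), ?_, ?_⟩
  · intro g hg hg1 hg2
    rw [Finset.mem_image]
    have hgd : ∀ x y, L x = L y → g x = g y := by
      intro x y h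
      have h1 : g 1 = 0 := hg1 1 hL1
      have h2 : g y⁻¹ = - g y := by
        have h3 := hg y y⁻¹
        rw [mul_inv_cancel, h1] at h3
        exact (neg_eq_of_add_eq_zero_right h3.symm).symm
      have h4 := hg1 (x * y⁻¹) (by rw [hL, hLi, h]; simp)
      rw [hg, h2] at h4
      linear_combination h4
    choose s hs using fun r : R => (r.2 : (r : ι → ZMod p) ∈ (mk ⊤ : Set (ι → ZMod p)))
    let g1 : R →+ ZMod p :=
      { toFun := fun r => g (s r)
        map_zero' := by
          refine hg1 _ ?_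
          rw [(hs 0).2]
          rfl
        map_add' := by
          intro r r'
          rw [← hg]
          refine hgd _ _ ?_
          rw [hL, (hs _).2, (hs _).2, (hs _).2]
          rfl }
    obtain ⟨φ, hφ⟩ := LinearMap.exists_extend (g1.toZModLinearMap p)
    have hφx : ∀ x, φ (L x) = g x := by
      intro x
      have h1 := congrArg (fun f : R →ₗ[ZMod p] ZMod p => f ⟨L x, hmemR x⟩) hφ
      have h2 : φ (L x) = g (s ⟨L x, hmemR x⟩) := h1
      rw [h2]
      exact hgd _ _ (hs ⟨L x, hmemR x⟩).2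
    refine ⟨⟨φ, ?_⟩, Finset.mem_univ _, ?_⟩
    · rw [Submodule.mem_dualAnnihilator]
      rintro _ ⟨x, hx, rfl⟩
      rw [hφx]
      exact hg2 x hx
    · funext x
      exact hφx x
  · have h1 : (Finset.univ.image fun φ : RU.dualAnnihilator => fun x =>
        (φ : Module.Dual (ZMod p) (ι → ZMod p)) (L x)).card ≤
        Fintype.card RU.dualAnnihilator := by
      refine Finset.card_image_le.trans ?_
      rw [Finset.card_univ]
    have h2 : X.card ≤ Fintype.card RU := by
      rw [← Finset.card_univ]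
      refine Finset.card_le_card_of_injOn
        (fun x => if h : x ∈ U then (⟨L x, hmemU x h⟩ : RU) else 0) (fun _ _ => Finset.mem_univ _) ?_
      intro x hx y hy hxy
      rw [Finset.mem_coe] at hx hy
      simp only [dif_pos (hXU x hx), dif_pos (hXU y hy)] at hxy
      exact hX hx hy (congrArg Subtype.val hxy)
    refine (Nat.mul_le_mul h1 h2).trans ?_
    rw [Module.card_eq_pow_finrank (K := ZMod p) (V := RU.dualAnnihilator),
      Module.card_eq_pow_finrank (K := ZMod p) (V := RU), ZMod.card, ← pow_add]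
    have h3 := Subspace.finrank_add_finrank_dualAnnihilator_eq RU
    rw [Module.finrank_fintype_fun_eq_card] at h3
    rw [← h3, Nat.add_comm]

end linear

section local_

variable {p : ℕ} {F : Type} [Field F] [NumberField F]

theorem dvd_of_locPow (hp : p ≠ 0) (v : HeightOneSpectrum (𝓞 F)) {z : F} (h : LocPow p v z) :
    (p : ℤ) ∣ ordv v z := by
  obtain ⟨y, hy⟩ := h
  have h1 := val_eq_one_of_sub v hy
  have hz : z ≠ 0 := by
    rintro rfl
    rw [zero_mul, map_zero] at h1
    exact zero_ne_one h1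
  have hy0 : y ≠ 0 := by
    rintro rfl
    rw [zero_pow hp, mul_zero, map_zero] at h1
    exact zero_ne_one h1
  rw [← ordv_eq_zero_iff v (mul_ne_zero hz (pow_ne_zero p hy0)),
    ordv_mul v hz (pow_ne_zero p hy0), ordv_pow] at h1
  exact ⟨- ordv v y, by linarith⟩

/-- Two functionals whose common kernel is `LocPow`. -/
theorem two_fun [Fact p.Prime] {ε : F} (hε : IsPrimitiveRoot ε p) (v : HeightOneSpectrum (𝓞 F))
    (hv : v.valuation F (p : F) = 1) :
    ∃ L : Fˣ → Fin 2 → ZMod p, (∀ x y, L (x * y) = L x + L y) ∧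
      ∀ x : Fˣ, L x = 0 → LocPow p v (x : F) := by
  have hp : p.Prime := Fact.out
  have hN := (Pool.Agent.Helper16.REC.k_bas p F ε hε v hv).1
  obtain ⟨α, hα⟩ := Pool.Agent.Helper16.REC.exists_ordv v 1
  obtain ⟨θ, h1, h2, -⟩ := exists_theta v hp hN (α : F) hα
  refine ⟨fun x => ![ordp p v x, θ x], ?_, ?_⟩
  · intro x y
    have h3 : ordp p v (x * y) = ordp p v x + ordp p v y := by
      unfold ordp
      push_cast
      rw [ordv_mul v x.ne_zero y.ne_zero]
      push_cast
      ring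
    show ![ordp p v (x * y), θ (x * y)] = ![ordp p v x, θ x] + ![ordp p v y, θ y]
    rw [h1, h3]
    simp
  · intro x hx
    have e0 : ordp p v x = 0 := congrFun hx 0
    have e1 : θ x = 0 := congrFun hx 1
    obtain ⟨i, hi⟩ := (h2 x).1 e1
    have e2 : (p : ℤ) ∣ ordv v (x : F) := (ZMod.intCast_zmod_eq_zero_iff_dvd _ _).1 e0
    have e3 := dvd_of_locPow hp.ne_zero v hi
    rw [ordv_mul v x.ne_zero (pow_ne_zero _ α.ne_zero), ordv_pow, hα, mul_one] at e3
    have e4 : (p : ℤ) ∣ (i : ℤ) := (Int.dvd_add_right e2).1 e3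
    obtain ⟨k, hk⟩ := Int.natCast_dvd_natCast.1 e4
    rw [hk, mul_comm p k, pow_mul, locPow_mul_pth v (pow_ne_zero k α.ne_zero)] at hi
    exact hi

theorem locS_mul {Z : Set (HeightOneSpectrum (𝓞 F))} {x x' : Fˣ} (h : LocS p Z x)
    (h' : LocS p Z x') : LocS p Z (x * x') := by
  obtain ⟨y, hy⟩ := h
  obtain ⟨y', hy'⟩ := h'
  refine ⟨y * y', fun w hw => ?_⟩
  have h := Pool.Agent.Helper9.REC.near_mul (hy w hw) (hy' w hw)
  have e : ((x : F) * (y : F) ^ p) * ((x' : F) * (y' : F) ^ p) =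
      ((x * x' : Fˣ) : F) * ((y * y' : Fˣ) : F) ^ p := by
    push_cast
    ring
  rw [e] at h
  exact h

theorem locS_inv {Z : Set (HeightOneSpectrum (𝓞 F))} {x : Fˣ} (h : LocS p Z x) :
    LocS p Z x⁻¹ := by
  obtain ⟨y, hy⟩ := h
  refine ⟨y⁻¹, fun w hw => ?_⟩
  have h := Pool.Agent.Helper9.REC.near_inv (hy w hw)
  have e : ((x : F) * (y : F) ^ p)⁻¹ = ((x⁻¹ : Fˣ) : F) * ((y⁻¹ : Fˣ) : F) ^ p := by
    push_cast
    rw [mul_inv, inv_pow]
  rw [e] at h
  exact h

theorem locS_one {Z : Set (HeightOneSpectrum (𝓞 F))} : LocS p Z (1 : Fˣ) := by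
  refine ⟨1, fun w hw => ?_⟩
  have h := Pool.Agent.Helper9.REC.near_one (p := p) w
  have e : ((1 : Fˣ) : F) * ((1 : Fˣ) : F) ^ p = 1 := by
    rw [Units.val_one, one_pow, mul_one]
  rw [← e] at h
  exact h

/-- The subgroup of the elements with `LocS`. -/
def subS (p : ℕ) {F : Type} [Field F] [NumberField F] (Z : Set (HeightOneSpectrum (𝓞 F))) :
    Subgroup Fˣ where
  carrier := {x | LocS p Z x}
  mul_mem' := locS_mul
  one_mem' := locS_one
  inv_mem' := locS_inv

theorem pw_of {K : Type} [Field K] (n : ℕ) (x : Kˣ) (h : ∃ y : K, y ^ n = x) (hn : n ≠ 0) :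
    Pw n x := by
  obtain ⟨y, hy⟩ := h
  have hy0 : y ≠ 0 := by
    rintro rfl
    rw [zero_pow hn] at hy
    exact x.ne_zero hy.symm
  exact ⟨Units.mk0 y hy0, Units.ext (by rw [Units.val_pow_eq_pow_val, Units.val_mk0, hy])⟩

/-- A set of `Z`-units with `LocS` at the primes above `p`, incongruent modulo `p`-th powers. -/
theorem exists_XB [hpf : Fact p.Prime] (h4 : X_LIX) (h5 : X_UNL) {ε : F}
    (hε : IsPrimitiveRoot ε p) (Z : Set (HeightOneSpectrum (𝓞 F))) (hZ : Z.Finite) :
    ∃ X : Finset Fˣ, 1 ∈ X ∧ (∀ x ∈ X, x ∈ Z.unit F ∧ LocS p (abP p F) x) ∧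
      (∀ x ∈ X, ∀ y ∈ X, x ≠ y → ¬ Pw p (x / y)) ∧
      p ^ (Units.rank F + 1 + Z.ncard) ≤
        X.card * p ^ (2 * (abP p F).ncard + finrank ℚ F) := by
  classical
  have hp : p.Prime := hpf.out
  obtain ⟨X₀, hc, hu, hne⟩ := h5 p F ε hε Z hZ
  set N := p ^ (2 * (abP p F).ncard + finrank ℚ F) with hN
  have hNpos : 0 < N := pow_pos hp.pos _
  let π : Fˣ → Fˣ ⧸ subS p (abP p F) := QuotientGroup.mk
  set Q := X₀.image π with hQ
  have hQc : Q.card ≤ N := by
    have h1 := h4 p F ε hε (Q.image Quotient.out) (by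
      intro x hx y hy hxy hl
      rw [Finset.mem_image] at hx hy
      obtain ⟨q, hq, rfl⟩ := hx
      obtain ⟨q', hq', rfl⟩ := hy
      apply hxy
      congr 1
      have h2 : (Quotient.out q' : Fˣ)⁻¹ * Quotient.out q ∈ subS p (abP p F) := by
        have h3 : LocS p (abP p F) (Quotient.out q / Quotient.out q') := hl
        rw [div_eq_mul_inv, mul_comm] at h3
        exact h3
      have h4 := QuotientGroup.eq.2 h2
      rw [QuotientGroup.out_eq', QuotientGroup.out_eq'] at h4
      exact h4.symm)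
    rw [Finset.card_image_of_injective _ Quotient.out_injective] at h1
    exact h1
  have hX₀ : 0 < X₀.card := by
    rw [hc]
    exact pow_pos hp.pos _
  obtain ⟨q, hq, hqc⟩ : ∃ q ∈ Q, X₀.card ≤ (X₀.filter fun x => π x = q).card * N := by
    by_contra hcon
    push Not at hcon
    have h1 : X₀.card = ∑ q ∈ Q, (X₀.filter fun x => π x = q).card :=
      Finset.card_eq_sum_card_image π X₀
    have hQne : Q.Nonempty := by
      rw [hQ, Finset.image_nonempty]
      exact Finset.card_pos.1 hX₀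
    have h2 : (∑ q ∈ Q, (X₀.filter fun x => π x = q).card) * N < Q.card * X₀.card := by
      rw [Finset.sum_mul, ← smul_eq_mul, ← Finset.sum_const]
      exact Finset.sum_lt_sum_of_nonempty hQne hcon
    rw [← h1] at h2
    have h3 : Q.card * X₀.card ≤ X₀.card * N := by
      rw [Nat.mul_comm]
      exact Nat.mul_le_mul_left _ hQc
    omega
  set X₁ := X₀.filter fun x => π x = q with hX₁
  obtain ⟨x₀, hx₀⟩ : X₁.Nonempty := by
    rw [← Finset.card_pos]
    by_contra h0
    have h1 : X₁.card = 0 := by omega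
    rw [h1, Nat.zero_mul] at hqc
    omega
  have hX₁m : ∀ x ∈ X₁, x ∈ X₀ ∧ π x = q := fun x hx => Finset.mem_filter.1 hx
  have hinj : Function.Injective fun x : Fˣ => x / x₀ := div_left_injective
  refine ⟨X₁.image fun x => x / x₀, ?_, ?_, ?_, ?_⟩
  · rw [Finset.mem_image]
    exact ⟨x₀, hx₀, div_self' x₀⟩
  · intro y hy
    rw [Finset.mem_image] at hy
    obtain ⟨x, hx, rfl⟩ := hy
    refine ⟨(Z.unit F).div_mem (hu x (hX₁m x hx).1) (hu x₀ (hX₁m x₀ hx₀).1), ?_⟩
    have h1 : π x₀ = π x := by rw [(hX₁m x hx).2, (hX₁m x₀ hx₀).2]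
    have h2 : x₀⁻¹ * x ∈ subS p (abP p F) := QuotientGroup.eq.1 h1
    rw [mul_comm, ← div_eq_mul_inv] at h2
    exact h2
  · intro y hy y' hy' hyy
    rw [Finset.mem_image] at hy hy'
    obtain ⟨x, hx, rfl⟩ := hy
    obtain ⟨x', hx', rfl⟩ := hy'
    rw [div_div_div_cancel_right]
    refine hne x (hX₁m x hx).1 x' (hX₁m x' hx').1 ?_
    rintro rfl
    exact hyy rfl
  · rw [Finset.card_image_of_injective _ hinj, ← hc]
    exact hqc

end local_

section kummer

variable {p : ℕ} [hpf : Fact p.Prime] {F : Type} [Field F] [NumberField F] {ε : F}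

/-- If `b` is a `p`-th power in the Kummer extension of `b'` then `b` is a power of `b'` up to a `p`-th power. -/
theorem kummer_pow {E : Type} [Field E] [NumberField E] [Algebra F E] {b b' : Fˣ} {r : E}
    {σ : E ≃ₐ[F] E} (hε : IsPrimitiveRoot ε p) (hk : Kum p ε b' r σ) (y : E)
    (hy : y ^ p = algebraMap F E (b : F)) : ∃ j < p, Pw p (b / b' ^ j) := by
  have hp : p.Prime := hpf.out
  have hgal := hk.gal
  have hb0 : algebraMap F E (b : F) ≠ 0 := (map_ne_zero _).2 b.ne_zero
  have hb0' : algebraMap F E (b' : F) ≠ 0 := (map_ne_zero _).2 b'.ne_zero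
  have hy0 : y ≠ 0 := by
    rintro rfl
    rw [zero_pow hp.ne_zero] at hy
    exact hb0 hy.symm
  have hr0 : r ≠ 0 := by
    rintro rfl
    have h := hk.root
    rw [zero_pow hp.ne_zero] at h
    exact hb0' h.symm
  have hεE : IsPrimitiveRoot (algebraMap F E ε) p := hε.map_of_injective (algebraMap F E).injective
  have h1 : (σ y / y) ^ p = 1 := by
    rw [div_pow, ← map_pow, hy, σ.commutes, div_self hb0]
  obtain ⟨j, hj, hjy⟩ := hεE.eq_pow_of_pow_eq_one h1
  refine ⟨j, hj, ?_⟩
  set c : E := y / r ^ j with hc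
  have hε0 : algebraMap F E ε ≠ 0 := (map_ne_zero _).2 (hε.ne_zero hp.ne_zero)
  have hsy : σ y ≠ 0 := (map_ne_zero_iff _ σ.injective).2 hy0
  have h2 : σ c = c := by
    rw [hc, map_div₀, map_pow, hk.act, mul_pow, hjy]
    field_simp
  have h3 : ∀ g : E ≃ₐ[F] E, g c = c := by
    intro g
    obtain ⟨i, -, hi⟩ := exists_pow σ
      (by rw [Pool.Agent.Helper19.REC.order_eq hε hk, hk.deg]) g
    rw [← hi]
    clear hi
    induction i with
    | zero => rfl
    | succ i ih =>
      rw [pow_succ']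
      show σ ((σ ^ i) c) = c
      rw [ih, h2]
  obtain ⟨d, hd⟩ := (IsGalois.mem_range_algebraMap_iff_fixed c).2 h3
  refine pw_of p _ ⟨d, ?_⟩ hp.ne_zero
  apply (algebraMap F E).injective
  rw [map_pow, hd, hc, div_pow, hy, ← pow_mul, mul_comm j p, pow_mul, hk.root]
  rw [Units.val_div_eq_div_val, Units.val_pow_eq_pow_val, map_div₀, map_pow]

omit hpf in
theorem kil_of {Z : Set (HeightOneSpectrum (𝓞 F))} {f : Fˣ → ZMod p} (h : KilT p Z f) :
    Kil p Z f := by
  refine ⟨h.hom, fun x hx => h.loc x fun v hv _ => ?_, h.unit⟩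
  obtain ⟨y, hy⟩ := hx
  exact ⟨y, (hy v hv).1⟩

theorem kilT_smul {Z : Set (HeightOneSpectrum (𝓞 F))} {f : Fˣ → ZMod p} (h : KilT p Z f)
    (c : ZMod p) : KilT p Z (fun x => c * f x) := by
  refine ⟨fun x y => ?_, fun x hx => ?_, fun x hx => ?_⟩
  · show c * f (x * y) = c * f x + c * f y
    rw [h.hom x y, mul_add]
  · show c * f x = 0
    rw [h.loc x hx, mul_zero]
  · show c * f x = 0
    rw [h.unit x hx, mul_zero]

omit hpf in
theorem val_one_of {Z : Set (HeightOneSpectrum (𝓞 F))} (hab : abP p F ⊆ Z)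
    (w : HeightOneSpectrum (𝓞 F)) (hw : w ∉ Z) : w.valuation F (p : F) = 1 := by
  by_contra hne
  have hle : w.valuation F (p : F) ≤ 1 := by
    have := w.valuation_le_one (K := F) (p : 𝓞 F)
    simpa using this
  exact hw (hab (lt_of_le_of_ne hle hne))

/-- If the functionals attached to `b` and `b'` are proportional then `b` is a power of `b'` up to a `p`-th
power. -/
theorem prop_pow [IsTotallyComplex F] (h2 : X_DB) (h3 : X_KLB) (hε : IsPrimitiveRoot ε p)
    {Z : Set (HeightOneSpectrum (𝓞 F))} (hZ : Z.Finite) (hab : abP p F ⊆ Z) (hpr : PrZ F Z)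
    {b b' : Fˣ} (hb' : b' ∈ Z.unit F) (hn : ¬ Pw p b') {s s' : Fˣ → ZMod p} (hs : KilT p Z s)
    (hs0 : ∃ x, s x ≠ 0) (hv : ∀ w ∉ Z, LocPow p w (b : F) → Van Z s w)
    (hv' : ∀ w ∉ Z, LocPow p w (b' : F) → Van Z s' w) {c : ZMod p}
    (hc : ∀ x, s x = c * s' x) : ∃ j < p, Pw p (b / b' ^ j) := by
  have hp : p.Prime := hpf.out
  obtain ⟨E, _, _, _, r, σ, hk⟩ := Pool.Agent.Helper53.REC.h_kum p F ε hε b' hn
  have hgal := hk.gal
  have hunr : UnrZ F E Z := by
    intro v hvZ W hW x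
    refine (Pool.Agent.Helper28.REC.h_ram p F E ε b' r σ hε hk v (val_one_of hab v hvZ)).1 ?_ W hW x
    rw [(ordv_eq_zero_iff v b'.ne_zero).2 (hb' v hvZ)]
    exact dvd_zero _
  obtain ⟨y, hy⟩ := h2 p F E ε hε Z hZ hab hunr hpr s (kil_of hs) hs0 b hv (by
    rintro w ⟨hw, W, hW, hfree⟩ x hx
    rw [hc]
    have h5 : LocPow p w (b' : F) := h3.1 p F E w W hW hfree (val_one_of hab w hw) b' r hk.root
      b'.ne_zero ((ordv_eq_zero_iff w b'.ne_zero).2 (hb' w hw))
    rw [hv' w hw h5 x hx, mul_zero])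
  exact kummer_pow hε hk y hy

end kummer

section main

variable {p : ℕ} [hpf : Fact p.Prime] {F : Type} [Field F] [NumberField F] {ε : F}

theorem finrank_eq [IsTotallyComplex F] : finrank ℚ F = 2 * (Units.rank F + 1) := by
  rw [IsTotallyComplex.finrank, Units.rank]
  have h1 := InfinitePlace.card_eq_nrRealPlaces_add_nrComplexPlaces F
  rw [IsTotallyComplex.nrRealPlaces_eq_zero, zero_add] at h1
  have h2 : 0 < Fintype.card (InfinitePlace F) := Fintype.card_pos
  rw [← h1]
  omega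

/-- A finite set which contains the functionals of tame local nature, and its size. -/
theorem exists_A (h5 : X_UNL) (hε : IsPrimitiveRoot ε p) {Z : Set (HeightOneSpectrum (𝓞 F))}
    (hZ : Z.Finite) (hab : abP p F ⊆ Z) (hinj : InjZ p F Z) :
    ∃ A : Finset (Fˣ → ZMod p), (∀ g, KilT p Z g → g ∈ A) ∧
      A.card * p ^ (Units.rank F + 1 + Z.ncard) * p ^ (2 * (abP p F).ncard) ≤
        p ^ (2 * Z.ncard) := by
  classical
  obtain ⟨X₀, hc, hu, hne⟩ := h5 p F ε hε Z hZ
  set T : Set (HeightOneSpectrum (𝓞 F)) := Z \ abP p F with hT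
  have hTfin : T.Finite := hZ.subset Set.sdiff_subset
  let _ : Fintype T := hTfin.fintype
  have hval : ∀ v : HeightOneSpectrum (𝓞 F), v ∉ abP p F → v.valuation F (p : F) = 1 :=
    fun v hv => val_one_of (le_refl _) v hv
  have hex : ∀ v : T, ∃ L : Fˣ → Fin 2 → ZMod p, (∀ x y, L (x * y) = L x + L y) ∧
      ∀ x : Fˣ, L x = 0 → LocPow p v.1 (x : F) := fun v =>
    two_fun hε v.1 (hval v.1 v.2.2)
  choose L hL1 hL2 using hex
  let Λ : Fˣ → T × Fin 2 → ZMod p := fun x i => L i.1 x i.2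
  have hΛ : ∀ x y, Λ (x * y) = Λ x + Λ y := by
    intro x y
    funext i
    exact congrFun (hL1 i.1 x y) i.2
  have hker : ∀ x, Λ x = 0 → ∀ v ∈ Z, v.valuation F (p : F) = 1 → LocPow p v (x : F) := by
    intro x hx v hv hv1
    have hvT : v ∈ T := ⟨hv, fun h => by
      have h' : v.valuation F (p : F) < 1 := h
      rw [hv1] at h'
      exact lt_irrefl _ h'⟩
    refine hL2 ⟨v, hvT⟩ x ?_
    funext i
    exact congrFun hx (⟨v, hvT⟩, i)
  have hΛ1 : Λ 1 = 0 := by
    have h := hΛ 1 1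
    rw [mul_one] at h
    simpa using h
  have hinjX : Set.InjOn Λ X₀ := by
    intro x hx y hy hxy
    by_contra hne'
    refine hne x hx y hy hne' (hinj _ ((Z.unit F).div_mem (hu x hx) (hu y hy)) ?_)
    refine hker _ ?_
    have h := hΛ (x / y) y
    rw [div_mul_cancel, hxy] at h
    simpa using h
  obtain ⟨A, hA1, hA2⟩ := dual_count Λ hΛ (Z.unit F) X₀ hu hinjX
  refine ⟨A, fun g hg => hA1 g hg.hom (fun x hx => hg.loc x (hker x hx)) hg.unit, ?_⟩
  rw [hc, Fintype.card_prod, Fintype.card_fin] at hA2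
  have hTc : Fintype.card T + (abP p F).ncard = Z.ncard := by
    rw [← Set.toFinset_card, ← Set.ncard_eq_toFinset_card' T]
    exact Set.ncard_sdiff_add_ncard_of_subset hab hZ
  calc A.card * p ^ (Units.rank F + 1 + Z.ncard) * p ^ (2 * (abP p F).ncard)
      ≤ p ^ (Fintype.card T * 2) * p ^ (2 * (abP p F).ncard) := Nat.mul_le_mul_right _ hA2
    _ = p ^ (2 * Z.ncard) := by
      rw [← pow_add, ← hTc]
      congr 1
      ring

end main

/-- **X_CNT.** -/
theorem x_cnt (h1 : X_FIK) (h2 : X_DB) (h3 : X_KLB) (h4 : X_LIX) (h5 : X_UNL) : X_CNT := by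
  classical
  intro p hpf F _ _ _ ε hε Z hZ hab hpr hinj f hf hf0
  have hp : p.Prime := hpf.out
  obtain ⟨X, hX1, hXu, hXn, hXc⟩ := exists_XB h4 h5 hε Z hZ
  obtain ⟨A, hA, hAc⟩ := exists_A h5 hε hZ hab hinj
  have hAX : A.card ≤ X.card := by
    set D := Units.rank F + 1 + Z.ncard with hD
    have hn : finrank ℚ F + 2 * Z.ncard = D + D := by
      rw [finrank_eq, hD]
      ring
    have e1 : A.card * (p ^ D * p ^ (2 * (abP p F).ncard + finrank ℚ F)) ≤ p ^ (D + D) := by
      rw [← hn, pow_add p (finrank ℚ F), pow_add p (2 * (abP p F).ncard), ← mul_assoc (p ^ D),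
        ← mul_assoc, ← mul_assoc, mul_comm (p ^ finrank ℚ F)]
      exact Nat.mul_le_mul_right _ hAc
    have e2 : p ^ (D + D) ≤ X.card * (p ^ D * p ^ (2 * (abP p F).ncard + finrank ℚ F)) := by
      rw [pow_add]
      calc p ^ D * p ^ D ≤ p ^ D * (X.card * p ^ (2 * (abP p F).ncard + finrank ℚ F)) :=
            Nat.mul_le_mul_left _ hXc
        _ = _ := by ring
    exact Nat.le_of_mul_le_mul_right (e1.trans e2) (Nat.mul_pos (pow_pos hp.pos _) (pow_pos hp.pos _))
  -- the functionals of the Kummer extensions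
  have hXne : ∀ b ∈ X.erase 1, ¬ Pw p b := by
    intro b hb
    have h := hXn b (Finset.mem_of_mem_erase hb) 1 hX1 (Finset.ne_of_mem_erase hb)
    rwa [div_one] at h
  have hex : ∀ b : Fˣ, ∃ s : Fˣ → ZMod p, b ∈ X.erase 1 → KilT p Z s ∧ (∃ x, s x ≠ 0) ∧
      ∀ w ∉ Z, LocPow p w (b : F) → Van Z s w := by
    intro b
    by_cases hb : b ∈ X.erase 1
    · obtain ⟨s, hs⟩ := h1 p F ε hε Z hZ hab hpr b (hXu b (Finset.mem_of_mem_erase hb)).1
        (hXne b hb) (hXu b (Finset.mem_of_mem_erase hb)).2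
      exact ⟨s, fun _ => hs⟩
    · exact ⟨0, fun h => absurd h hb⟩
  choose s hs using hex
  by_contra hcon
  -- `f` is not on the line of any `s b`
  have hnp : ∀ b ∈ X.erase 1, ∀ c : ZMod p, (fun x => c * f x) ≠ 0 → ∀ c' : ZMod p, c' ≠ 0 →
      (fun x => c' * s b x) ≠ fun x => c * f x := by
    intro b hb c hc c' hc' he
    apply hcon
    refine ⟨b, (hXu b (Finset.mem_of_mem_erase hb)).1, hXne b hb, fun w hw hl x hx => ?_⟩
    have hc0 : c ≠ 0 := by
      rintro rfl
      apply hc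
      funext x
      show (0 : ZMod p) * f x = 0
      rw [zero_mul]
    have h6 : c' * s b x = c * f x := congrFun he x
    rw [(hs b hb).2.2 w hw hl x hx, mul_zero] at h6
    exact (mul_eq_zero.1 h6.symm).resolve_left hc0
  have hfx : ∀ c : ZMod p, c ≠ 0 → (fun x => c * f x) ≠ 0 := by
    intro c hc h
    obtain ⟨x, hx⟩ := hf0
    exact (mul_ne_zero hc hx) (congrFun h x)
  set I : Finset (Fˣ → ZMod p) :=
    (Finset.univ.erase (0 : ZMod p)).image fun c => fun x => c * f x with hI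
  have hIc : I.card = p - 1 := by
    rw [hI, Finset.card_image_of_injOn, Finset.card_erase_of_mem (Finset.mem_univ _),
      Finset.card_univ, ZMod.card]
    intro c _ c' _ h
    obtain ⟨x, hx⟩ := hf0
    exact mul_right_cancel₀ hx (congrFun h x)
  have h0A : (0 : Fˣ → ZMod p) ∈ A := by
    have h := hA _ (kilT_smul hf 0)
    have e : (fun x => (0 : ZMod p) * f x) = 0 := by
      funext x
      exact zero_mul _
    rwa [e] at h
  have hIA : I ⊆ A.erase 0 := by
    intro g hg
    rw [hI, Finset.mem_image] at hg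
    obtain ⟨c, hc, rfl⟩ := hg
    exact Finset.mem_erase.2 ⟨hfx c (Finset.ne_of_mem_erase hc), hA _ (kilT_smul hf c)⟩
  set T : Finset (Fˣ → ZMod p) := A.erase 0 \ I with hT
  have hTc : T.card + p = A.card := by
    have h6 := Finset.card_sdiff_add_card_eq_card hIA
    rw [← hT, hIc, Finset.card_erase_of_mem h0A] at h6
    have h7 : 0 < A.card := Finset.card_pos.2 ⟨0, h0A⟩
    have h8 := hp.two_le
    omega
  set S : Finset (Fˣ × ZMod p) := X.erase 1 ×ˢ Finset.univ.erase 0 with hS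
  have hSc : S.card = (X.card - 1) * (p - 1) := by
    rw [hS, Finset.card_product, Finset.card_erase_of_mem hX1,
      Finset.card_erase_of_mem (Finset.mem_univ _), Finset.card_univ, ZMod.card]
  have hmaps : ∀ i ∈ S, (fun x => i.2 * s i.1 x) ∈ T := by
    intro i hi
    rw [hS, Finset.mem_product] at hi
    obtain ⟨hi1, hi2⟩ := hi
    have hi2' := Finset.ne_of_mem_erase hi2
    rw [hT, Finset.mem_sdiff, Finset.mem_erase]
    refine ⟨⟨?_, hA _ (kilT_smul (hs i.1 hi1).1 i.2)⟩, ?_⟩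
    · intro h
      obtain ⟨x, hx⟩ := (hs i.1 hi1).2.1
      exact (mul_ne_zero hi2' hx) (congrFun h x)
    · intro h
      rw [hI, Finset.mem_image] at h
      obtain ⟨c, hc, hce⟩ := h
      exact hnp i.1 hi1 c (hfx c (Finset.ne_of_mem_erase hc)) i.2 hi2' hce.symm
  have hfib : ∀ g ∈ T, (S.filter fun i => (fun x => i.2 * s i.1 x) = g).card ≤ p - 1 := by
    intro g hg
    rcases (S.filter fun i => (fun x => i.2 * s i.1 x) = g).eq_empty_or_nonempty with he | hne
    · rw [he, Finset.card_empty]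
      exact Nat.zero_le _
    obtain ⟨i₀, hi₀⟩ := hne
    rw [Finset.mem_filter, hS, Finset.mem_product] at hi₀
    obtain ⟨⟨hb₀, hc₀⟩, hg₀⟩ := hi₀
    have key : ∀ i ∈ S.filter fun i => (fun x => i.2 * s i.1 x) = g,
        ∃ j < p, Pw p (i.1 / i₀.1 ^ j) := by
      intro i hi
      rw [Finset.mem_filter, hS, Finset.mem_product] at hi
      obtain ⟨⟨hb, hc⟩, hgi⟩ := hi
      have hc' := Finset.ne_of_mem_erase hc
      refine prop_pow h2 h3 hε hZ hab hpr (hXu i₀.1 (Finset.mem_of_mem_erase hb₀)).1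
        (hXne i₀.1 hb₀) (hs i.1 hb).1 (hs i.1 hb).2.1 (hs i.1 hb).2.2 (hs i₀.1 hb₀).2.2
        (c := i.2⁻¹ * i₀.2) ?_
      intro x
      have h6 : i.2 * s i.1 x = i₀.2 * s i₀.1 x := congrFun (hgi.trans hg₀.symm) x
      rw [mul_assoc, ← h6, inv_mul_cancel_left₀ hc']
    have hj : ∀ i : Fˣ × ZMod p, ∃ j : ℕ, i ∈ (S.filter fun i => (fun x => i.2 * s i.1 x) = g) →
        j < p ∧ Pw p (i.1 / i₀.1 ^ j) := by
      intro i
      by_cases hi : i ∈ S.filter fun i => (fun x => i.2 * s i.1 x) = g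
      · obtain ⟨j, hj1, hj2⟩ := key i hi
        exact ⟨j, fun _ => ⟨hj1, hj2⟩⟩
      · exact ⟨0, fun h => absurd h hi⟩
    choose j hj using hj
    have hcard : ((Finset.range p).erase 0).card = p - 1 := by
      rw [Finset.card_erase_of_mem (Finset.mem_range.2 hp.pos), Finset.card_range]
    rw [← hcard]
    refine Finset.card_le_card_of_injOn j ?_ ?_
    · intro i hi
      have hi' : i ∈ S.filter fun i => (fun x => i.2 * s i.1 x) = g := hi
      obtain ⟨h6, h7⟩ := hj i hi'
      rw [Finset.mem_coe, Finset.mem_erase, Finset.mem_range]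
      refine ⟨fun h0 => ?_, h6⟩
      rw [h0, pow_zero, div_one] at h7
      rw [Finset.mem_filter, hS, Finset.mem_product] at hi'
      exact hXne i.1 hi'.1.1 h7
    · intro i hi i' hi' hjj
      have hiS : i ∈ S.filter fun i => (fun x => i.2 * s i.1 x) = g := hi
      have hiS' : i' ∈ S.filter fun i => (fun x => i.2 * s i.1 x) = g := hi'
      obtain ⟨-, h7⟩ := hj i hiS
      obtain ⟨-, h7'⟩ := hj i' hiS'
      rw [hjj] at h7
      rw [Finset.mem_filter, hS, Finset.mem_product] at hiS hiS'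
      have hb : i.1 = i'.1 := by
        by_contra hbb
        refine hXn i.1 (Finset.mem_of_mem_erase hiS.1.1) i'.1
          (Finset.mem_of_mem_erase hiS'.1.1) hbb ?_
        obtain ⟨y, hy⟩ := h7
        obtain ⟨y', hy'⟩ := h7'
        refine ⟨y / y', ?_⟩
        rw [div_pow, ← hy, ← hy', div_div_div_cancel_right]
      have hc : i.2 = i'.2 := by
        obtain ⟨x, hx⟩ := (hs i.1 hiS.1.1).2.1
        have h8 : i.2 * s i.1 x = i'.2 * s i'.1 x := congrFun (hiS.2.trans hiS'.2.symm) x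
        rw [← hb] at h8
        exact mul_right_cancel₀ hx h8
      exact Prod.ext hb hc
  have hfinal := Finset.card_le_mul_card_image_of_maps_to
    (f := fun i : Fˣ × ZMod p => fun x => i.2 * s i.1 x) hmaps (p - 1) hfib
  rw [hSc, mul_comm] at hfinal
  have hp1 : 0 < p - 1 := by
    have := hp.two_le
    omega
  have h9 := Nat.le_of_mul_le_mul_left hfinal hp1
  have h10 : 0 < X.card := Finset.card_pos.2 ⟨1, hX1⟩
  have := hp.two_le
  omega

end Pool.Agent.Helper19.PB
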